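import Pool.Agent.H73.ST.Final
import Pool.Agent.Helper43.ST.Time

/-!
# An efficient exact uniform sampler for simplicial spanning trees

There is a probabilistic Turing machine which, given the list of all faces of a finite simplicial
complex, outputs each of its spanning trees with probability exactly `1 / #(spanning trees)`, in
expected time polynomial in the number of faces. This answers Q1.

Proof. Let `N` be the number of faces of top dimension, `M ≤ 2 ^ N` the number of spanning trees
(bases of the column matroid of the boundary map), and `s = D * N + 1` for a large constant `D`.
The machine flips `s` coins.

* If some coin is `1`, it runs a version of the basis-exchange walk with `2 T` moves from the greedy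
  basis, where each move uses `m` fair coins, and outputs the result. The basis `y` is reached by
  `C y` of the `2 ^ (2 T m)` coin strings. By the Poincaré inequality of Anari, Liu, Oveis Gharan and
  Vinzant (proved here for all matroids) `C y` is so close to `2 ^ (2 T m) / M` that
  `(2 ^ s - 1) * C y ≤ ⌊2 ^ (2 T m + s) / M⌋ =: β`.
* If all coins are `0` (probability `2 ^ (-s)`), it writes down the list of all subsets of the set
  of faces of top dimension, computes all numbers `C y` by dynamic programming, and uses `2 T m`
  coins to output each basis `y` with probability `(β - (2 ^ s - 1) * C y) / 2 ^ (2 T m)`; with the
  remaining probability it starts again.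

In each round each basis is output with the same probability `β / 2 ^ (2 T m + s)`, and the
exponential time of the second case is compensated by its probability `2 ^ (-s)`.
-/

set_option autoImplicit false

namespace Pool.Agent.Results.MP_d8fb5e_lc.ExactSampler

open Pool.Agent.NPC Pool.Agent.H73.ST

/-- There are a probabilistic Turing machine `M` and a polynomial `p` such that for every finite
simplicial complex `F` of dimension at least one, the number of spanning trees of `F` is positive,
`M` outputs each spanning tree of `F` with probability exactly one over the number of spanning
trees, and the expected running time of `M` is at most `p` of the number of faces. -/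
theorem result : ∃ (M : PTM) (p : Polynomial ℕ), ∀ F : List (List ℕ), IsComplex F →
    0 < {U | IsSpanningTree F U}.ncard ∧
    (∀ U, IsSpanningTree F U →
      M.prob (bits F) (bits U) = 1 / ({U | IsSpanningTree F U}.ncard : ℕ)) ∧
    M.expTime (bits F) ≤ (p.eval F.length : ℕ) :=
  main Pool.Agent.H43.ST.t_TIME

end Pool.Agent.Results.MP_d8fb5e_lc.ExactSampler
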